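import Pool.Agent.TH869.EVF.Fin1

set_option autoImplicit false

/-!
# Torsion in the class groups of the fields generated by the roots of Dickson polynomials

`Polynomial.dickson 1 a n` is the Dickson polynomial `D_n(x, a)` of the first kind: the monic
polynomial of degree `n` with `D_n(u + a / u, a) = u ^ n + (a / u) ^ n`, for example
`D_5(x, a) = x ^ 5 - 5 a x ^ 3 + 5 a ^ 2 x` and `D_n(x, 0) = x ^ n`. Let `n ≥ 3` be odd. For all
integers `a`, `b` with `3 ∤ n` or `a = 0`, and `b ^ 2 ≠ 4 a ^ n`, every number field `K = ℚ(α)` of
degree `n` with `D_n(α, a) = b` satisfies, for every `l ≥ 1`,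
`|Cl_K[l]| ≤ C l ^ n log (|a| + |b| + 2) |disc K| ^ (1 / 2 - 1 / (l n (n - 1)) + ε)`,
where `C` depends only on `n` and `ε`. There is no exceptional field, and no hypothesis on
`L`-functions. (The Galois closure of `K` is in general not abelian over any quadratic field and
its Galois group is in general the full affine group of `ℤ / n`.)

Method: if `p` is a prime and `n` is prime to `p ^ 2 - 1`, then `D_n(x, a)` permutes the residues
modulo `p`, and `K` has a prime ideal of norm `p`, unless `p` divides a number which depends on `n`,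
`a` and `b`; such primes `p` have positive density if `3 ∤ n`. The classes of these prime ideals
of small norm are independent modulo the torsion.

The theorem is in the module `Pool/Agent/TH869/EVF/Fin1.lean` of the starting repository, where no
hand-in used it; the case `a = 0` (pure fields) is in the starting result `PureFields` of this
folder, with a better exponent.
-/

namespace Pool.Agent.Results.MP_695920_nt.DicksonFields

open NumberField Polynomial

theorem result (n : ℕ) (hn : 3 ≤ n) (hodd : Odd n) (ε : ℝ) (hε : 0 < ε) :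
    ∃ C : ℝ, 0 < C ∧ ∀ l : ℕ, 1 ≤ l → ∀ a b : ℤ, (a = 0 ∨ ¬ 3 ∣ n) → b ^ 2 ≠ 4 * a ^ n →
    ∀ (K : Type) [Field K] [NumberField K], Module.finrank ℚ K = n → ∀ α : K,
    IntermediateField.adjoin ℚ {α} = ⊤ → (dickson 1 (a : K) n).eval α = b →
    (Nat.card {c : ClassGroup (𝓞 K) // c ^ l = 1} : ℝ) ≤
      C * l ^ n * Real.log (|(a : ℝ)| + |(b : ℝ)| + 2) *
        |(discr K : ℝ)| ^ (1 / 2 - 1 / (l * n * (n - 1)) + ε : ℝ) :=
  Pool.Agent.TH869.EVF.dickson_torsion n hn hodd ε hε

end Pool.Agent.Results.MP_695920_nt.DicksonFields
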