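import Mathlib
import Pool.Agent.V1166.WI.Any
import Pool.Agent.Results.MP_695920_nt.PureFieldMoments

/-!
# The torsion of the class groups of pure fields: moments in windows of ANY length

Let `v k ≥ 1` be a sequence with `∑ (v k) ^ (-ε) < ∞` for all `ε > 0`, for instance `v k = 2 ^ k` or
`k!`. For almost every real `α`, all odd `n ≥ 3`, all `l ≥ 1`, `r ≥ 1` with
`r (n - 1) ≤ 2 l (n - 2)`, all `ε > 0`, all large `k` and ALL `1 ≤ H ≤ v k`, the mean value of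
`|Cl(ℚ(e^(1/n)))[l]| ^ r` over the squarefree integers `e` of the window `|e - α v k| ≤ H` is at most
`(v k) ^ (r (n - 1) (1 / 2 - 3 / (2 n l)) + ε)`. The discriminants are about `(v k) ^ (n - 1)`.
-/

set_option autoImplicit false

namespace Pool.Agent.Results.MP_695920_nt.PureFieldsInAllWindows

open MeasureTheory Filter Finset NumberField

/-- `K` is the pure field `ℚ(e^(1/n))` of degree `n` -/
def IsPure (n e : ℕ) (K : Type) [Field K] [NumberField K] : Prop :=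
  Squarefree e ∧ Module.finrank ℚ K = n ∧
    ∃ x : K, IntermediateField.adjoin ℚ {x} = ⊤ ∧ x ^ n = (e : K)

/-- the number `m` is the order of the `l`-torsion of the class group of a pure field
`ℚ(e^(1/n))` -/
def Q (n l : ℕ) (e m : ℕ) : Prop :=
  ∃ (K : Type) (_ : Field K) (_ : NumberField K), IsPure n e K ∧
    Nat.card {c : ClassGroup (𝓞 K) // c ^ l = 1} = m

lemma bdd (n l : ℕ) (hn : 3 ≤ n) (hodd : Odd n) (hl : 1 ≤ l) (e : ℕ) :
    BddAbove {m | Q n l e m} := by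
  obtain ⟨C, hC, h2⟩ := Pool.Agent.Results.MP_695920_nt.PureFieldMoments.result n l 1 hn hodd hl 1
    one_pos
  refine ⟨⌈C * (((e + 1 : ℕ) : ℝ) ^ (1 + ((1 : ℕ) : ℝ) * (((n : ℝ) - 1) *
    (1 / 2 - 3 / (2 * n * l))) + 1) + ((e + 1 : ℕ) : ℝ) ^ (2 / (n : ℝ) + ((1 : ℕ) : ℝ) *
      (((n : ℝ) - 1) * (1 / 2 - 1 / (n * l))) + 1))⌉₊, fun m hm => ?_⟩
  obtain ⟨K, i1, i2, ⟨h3, h4, x, h5, h6⟩, h7⟩ := hm
  have h8 := h2 (e + 1) (by omega) (fun _ => K) (fun _ => x) {e} (fun e' he' => by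
    rw [mem_singleton] at he'
    subst he'
    exact ⟨h3, by omega, h4, h5, h6⟩)
  rw [sum_singleton, h7, pow_one] at h8
  exact_mod_cast h8.trans (Nat.le_ceil _)

/-- the maximal order, `0` if there is no such field -/
noncomputable def M (n l e : ℕ) : ℕ := sSup {m | Q n l e m}

lemma mem_M {n l e : ℕ} (hn : 3 ≤ n) (hodd : Odd n) (hl : 1 ≤ l) (h : M n l e ≠ 0) :
    Q n l e (M n l e) := by
  have hne : {m | Q n l e m}.Nonempty := by
    by_contra hcon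
    rw [Set.not_nonempty_iff_eq_empty] at hcon
    refine h ?_
    unfold M
    rw [hcon, csSup_empty, bot_eq_zero]
  exact Nat.sSup_mem hne (bdd n l hn hodd hl e)

lemma family {n l : ℕ} (hn : 3 ≤ n) (hodd : Odd n) (hl : 1 ≤ l) : ∃ (K : ℕ → Type)
    (_ : ∀ e, Field (K e)) (_ : ∀ e, NumberField (K e)) (x : ∀ e, K e), ∀ e, M n l e ≠ 0 →
      Squarefree e ∧ Module.finrank ℚ (K e) = n ∧ IntermediateField.adjoin ℚ {x e} = ⊤ ∧
      (x e) ^ n = (e : K e) ∧ Nat.card {c : ClassGroup (𝓞 (K e)) // c ^ l = 1} = M n l e := by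
  have h : ∀ e : ℕ, ∃ (K : Type) (_ : Field K) (_ : NumberField K) (x : K), M n l e ≠ 0 →
      Squarefree e ∧ Module.finrank ℚ K = n ∧ IntermediateField.adjoin ℚ {x} = ⊤ ∧
      x ^ n = (e : K) ∧ Nat.card {c : ClassGroup (𝓞 K) // c ^ l = 1} = M n l e := by
    intro e
    by_cases h0 : M n l e = 0
    · exact ⟨ℚ, inferInstance, inferInstance, 0, fun h => absurd h0 h⟩
    · obtain ⟨K, i1, i2, ⟨h1, h2, x, h3, h4⟩, h5⟩ := mem_M hn hodd hl h0
      exact ⟨K, i1, i2, x, fun _ => ⟨h1, h2, h3, h4, h5⟩⟩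
  choose K i1 i2 x h1 using h
  exact ⟨K, i1, i2, x, h1⟩

lemma total (n l r : ℕ) (hn : 3 ≤ n) (hodd : Odd n) (hl : 1 ≤ l) (hr : 1 ≤ r)
    (hlr : r * (n - 1) ≤ 2 * l * (n - 2)) (ε : ℝ) (hε : 0 < ε) :
    ∃ C : ℝ, 0 < C ∧ ∀ N : ℕ, 1 ≤ N → ∑ D ∈ Icc (-(N : ℤ)) N, (M n l D.toNat : ℝ) ^ r ≤
      C * (N : ℝ) ^ (1 + r * (((n : ℝ) - 1) * (1 / 2 - 3 / (2 * n * l))) + ε) := by
  classical
  obtain ⟨C, hC, h2⟩ := Pool.Agent.Results.MP_695920_nt.PureFieldMoments.result n l r hn hodd hl ε hε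
  obtain ⟨K, i1, i2, x, hK⟩ := family hn hodd hl
  have hM0 : M n l 0 = 0 := by
    by_contra hcon
    obtain ⟨h1, -⟩ := hK 0 hcon
    exact not_squarefree_zero h1
  refine ⟨2 * C, by positivity, fun N hN => ?_⟩
  have h3 := h2 N hN K x ((Icc 1 N).filter (fun e => M n l e ≠ 0)) (fun e he => by
    obtain ⟨g1, g2⟩ := mem_filter.1 he
    obtain ⟨g3, g4, g5, g6, -⟩ := hK e g2
    exact ⟨g3, (mem_Icc.1 g1).2, g4, g5, g6⟩)
  have h4 : ∑ D ∈ Icc (-(N : ℤ)) N, (M n l D.toNat : ℝ) ^ r =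
      ∑ e ∈ (Icc 1 N).filter (fun e => M n l e ≠ 0),
        (Nat.card {c : ClassGroup (𝓞 (K e)) // c ^ l = 1} : ℝ) ^ r := by
    have h5 : ∑ D ∈ Icc (-(N : ℤ)) N, (M n l D.toNat : ℝ) ^ r =
        ∑ D ∈ (Icc 1 N).image (fun e : ℕ => (e : ℤ)), (M n l D.toNat : ℝ) ^ r := by
      refine (sum_subset (fun D hD => ?_) fun D hD hD' => ?_).symm
      · obtain ⟨e, he, rfl⟩ := mem_image.1 hD
        rw [mem_Icc] at he ⊢
        omega
      · have h6 : D.toNat = 0 := by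
          by_contra hcon
          refine hD' (mem_image.2 ⟨D.toNat, ?_, by omega⟩)
          rw [mem_Icc] at hD ⊢
          omega
        rw [h6, hM0, Nat.cast_zero, zero_pow (by omega)]
    rw [h5, sum_image (fun a _ b _ hab => by exact_mod_cast hab), sum_filter]
    refine sum_congr rfl fun e _ => ?_
    rw [Int.toNat_natCast]
    by_cases h0 : M n l e = 0
    · rw [if_neg (not_not.2 h0), h0, Nat.cast_zero, zero_pow (by omega)]
    · rw [if_pos h0, (hK e h0).2.2.2.2]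
  rw [h4]
  refine h3.trans ?_
  have hN1 : (1 : ℝ) ≤ N := by exact_mod_cast hN
  have hexp : 2 / (n : ℝ) + r * (((n : ℝ) - 1) * (1 / 2 - 1 / (n * l))) + ε ≤
      1 + r * (((n : ℝ) - 1) * (1 / 2 - 3 / (2 * n * l))) + ε := by
    have hn0 : (0 : ℝ) < n := by positivity
    have hl0 : (0 : ℝ) < l := by exact_mod_cast hl
    have h7 : (r : ℝ) * ((n : ℝ) - 1) ≤ 2 * l * ((n : ℝ) - 2) := by
      have h8 : ((r * (n - 1) : ℕ) : ℝ) ≤ ((2 * l * (n - 2) : ℕ) : ℝ) := by exact_mod_cast hlr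
      rw [Nat.cast_mul, Nat.cast_mul, Nat.cast_mul, Nat.cast_sub (by omega),
        Nat.cast_sub (by omega)] at h8
      push_cast at h8
      exact h8
    have h9 : 1 + (r : ℝ) * (((n : ℝ) - 1) * (1 / 2 - 3 / (2 * n * l))) -
        (2 / (n : ℝ) + r * (((n : ℝ) - 1) * (1 / 2 - 1 / (n * l)))) =
        (2 * l * ((n : ℝ) - 2) - r * ((n : ℝ) - 1)) / (2 * n * l) := by
      field_simp
      ring
    have h10 : 0 ≤ (2 * l * ((n : ℝ) - 2) - r * ((n : ℝ) - 1)) / (2 * n * l) :=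
      div_nonneg (by linarith) (by positivity)
    linarith
  have h11 := Real.rpow_le_rpow_of_exponent_le hN1 hexp
  calc _ ≤ C * ((N : ℝ) ^ (1 + r * (((n : ℝ) - 1) * (1 / 2 - 3 / (2 * n * l))) + ε) +
        (N : ℝ) ^ (1 + r * (((n : ℝ) - 1) * (1 / 2 - 3 / (2 * n * l))) + ε)) :=
        mul_le_mul_of_nonneg_left (by linarith) hC.le
    _ = _ := by ring

/-- **Theorem.** Let `v k ≥ 1` be a sequence with `∑ (v k) ^ (-ε) < ∞` for all `ε > 0`. For almost all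
real `α`, for all odd `n ≥ 3`, all `l ≥ 1`, `r ≥ 1` with `r (n - 1) ≤ 2 l (n - 2)` and `ε > 0` and all
large `k`, for ALL `1 ≤ H ≤ v k` the sum of `#Cl(K_e)[l] ^ r` over a set of squarefree integers `e`
with `|e - α v k| ≤ H`, `K_e = ℚ(e^(1/n))`, is at most
`H * (v k) ^ (r (n - 1) (1 / 2 - 3 / (2 n l)) + ε)`. -/
theorem result (v : ℕ → ℝ) (hv1 : ∀ k, 1 ≤ v k)
    (hv : ∀ ε : ℝ, 0 < ε → Summable fun k => (v k) ^ (-ε)) :
    ∀ᵐ α : ℝ, ∀ n l r : ℕ, 3 ≤ n → Odd n → 1 ≤ l → 1 ≤ r → r * (n - 1) ≤ 2 * l * (n - 2) →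
      ∀ ε : ℝ, 0 < ε → ∀ᶠ k : ℕ in atTop, ∀ H : ℝ, 1 ≤ H → H ≤ v k →
        ∀ (S : Finset ℕ) (K : ℕ → Type) [∀ e, Field (K e)] [∀ e, NumberField (K e)],
        (∀ e ∈ S, |(e : ℝ) - α * v k| ≤ H ∧ IsPure n e (K e)) →
        ∑ e ∈ S, (Nat.card {c : ClassGroup (𝓞 (K e)) // c ^ l = 1} : ℝ) ^ r ≤
          H * (v k) ^ (r * (((n : ℝ) - 1) * (1 / 2 - 3 / (2 * n * l))) + ε) := by
  classical
  have key : ∀ n l r : ℕ, ∀ᵐ α : ℝ, (3 ≤ n ∧ Odd n ∧ 1 ≤ l ∧ 1 ≤ r ∧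
      r * (n - 1) ≤ 2 * l * (n - 2)) → ∀ ε : ℝ, 0 < ε → ∀ᶠ k : ℕ in atTop,
      ∀ H : ℝ, 1 ≤ H → H ≤ v k → ∀ S : Finset ℤ, (∀ D ∈ S, |(D : ℝ) - α * v k| ≤ H) →
        ∑ D ∈ S, (M n l D.toNat : ℝ) ^ r ≤
          H * (v k) ^ (r * (((n : ℝ) - 1) * (1 / 2 - 3 / (2 * n * l))) + ε) := by
    intro n l r
    by_cases hc : 3 ≤ n ∧ Odd n ∧ 1 ≤ l ∧ 1 ≤ r ∧ r * (n - 1) ≤ 2 * l * (n - 2)
    · obtain ⟨hn, hodd, hl, hr, hlr⟩ := hc
      have hE : 0 ≤ (r : ℝ) * (((n : ℝ) - 1) * (1 / 2 - 3 / (2 * n * l))) := by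
        have h1 : (3 : ℝ) ≤ n := by exact_mod_cast hn
        have h2 : (1 : ℝ) ≤ l := by exact_mod_cast hl
        have h3 : 3 / (2 * (n : ℝ) * l) ≤ 1 / 2 := by
          rw [div_le_div_iff₀ (by positivity) (by norm_num)]
          nlinarith
        exact mul_nonneg (Nat.cast_nonneg _) (mul_nonneg (by linarith) (by linarith))
      filter_upwards [Pool.Agent.V1166.WI.windows (w := fun D => (M n l D.toNat : ℝ) ^ r)
        (fun D => by positivity) hE (total n l r hn hodd hl hr hlr) hv1 hv] with α hα _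
      exact hα
    · exact Eventually.of_forall fun α h1 => absurd h1 hc
  filter_upwards [ae_all_iff.2 fun n => ae_all_iff.2 fun l => ae_all_iff.2 fun r => key n l r]
    with α hα n l r hn hodd hl hr hlr ε hε
  filter_upwards [hα n l r ⟨hn, hodd, hl, hr, hlr⟩ ε hε] with k hk H hH1 hH S K i1 i2 hS
  have h1 := hk H hH1 hH (S.image (fun e : ℕ => (e : ℤ))) (fun D hD => by
    obtain ⟨e, he, rfl⟩ := mem_image.1 hD
    rw [Int.cast_natCast]
    exact (hS e he).1)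
  rw [sum_image (fun a _ b _ hab => by exact_mod_cast hab)] at h1
  simp only [Int.toNat_natCast] at h1
  refine le_trans (sum_le_sum fun e he => ?_) h1
  refine pow_le_pow_left₀ (Nat.cast_nonneg _) ?_ r
  exact_mod_cast le_csSup (bdd n l hn hodd hl e) ⟨K e, i1 e, i2 e, (hS e he).2, rfl⟩

end Pool.Agent.Results.MP_695920_nt.PureFieldsInAllWindows
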