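import Mathlib
import Pool.Agent.Results.MP_695920_nt.ShortProgressions
import Pool.Agent.V11109.DEC.Zero

/-!
# Class group torsion of almost all real quadratic fields of the terms of sparse sequences

Let `p > 1` be a real number. There is a set `A₀` of real numbers of Hausdorff dimension smaller than
one such that the following holds for all `α > 0` outside `A₀`, with `t_j = ⌊α j ^ p⌋` (there are about
`X ^ (1 / p)` terms up to `X`), all integers `e ≥ 1` and all `ε, B > 0`: for all but `O(N / (log N) ^ B)` of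
the `j ≤ N` the integer `d = e t_j` is a square or the class group of the real quadratic field `K` of the
square root of `d` satisfies `|Cl(K)[l]| ≤ D ^ (1/2 - 1/(2l)) d ^ ε` for ALL `l ≥ 1`, `D` the
discriminant. At least a third of the `t_j` are squarefree.
-/

set_option autoImplicit false

namespace Pool.Agent.Results.MP_695920_nt.TorsionAlongSequences

open Finset NumberField

open Pool.Agent.V11109.DEC (term Rare ManySquarefree)

/-- `d > 0` is not a square and for some `l ≥ 1` the real quadratic field `K` of the square root of `d`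
has more than `D ^ (1/2 - 1/(2l)) * d ^ ε` ideal classes killed by `l` -/
def Large (ε : ℝ) (d : ℤ) : Prop :=
  0 < d ∧ ¬ IsSquare d ∧ ∃ (K : Type) (_ : Field K) (_ : NumberField K) (l : ℕ),
    Module.finrank ℚ K = 2 ∧ (∃ x : K, x ^ 2 = (d : K)) ∧ 1 ≤ l ∧
      |(discr K : ℝ)| ^ (1 / 2 - 1 / (2 * l) : ℝ) * (d : ℝ) ^ ε <
        (Nat.card {c : ClassGroup (𝓞 K) // c ^ l = 1} : ℝ)

lemma Large.mono {ε ε' : ℝ} (h : ε ≤ ε') {d : ℤ} (hd : Large ε' d) : Large ε d := by
  obtain ⟨h0, h1, K, i1, i2, l, h2, h3, h4, h5⟩ := hd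
  refine ⟨h0, h1, K, i1, i2, l, h2, h3, h4, lt_of_le_of_lt ?_ h5⟩
  have hd1 : (1 : ℝ) ≤ d := by exact_mod_cast h0
  exact mul_le_mul_of_nonneg_left (Real.rpow_le_rpow_of_exponent_le hd1 h) (by positivity)

open Classical in
/-- almost all integers are not in `Large` -/
lemma count (ε B : ℝ) (hε : 0 < ε) (hB : 0 < B) : ∃ X₀ : ℕ, ∀ X : ℕ, X₀ ≤ X →
    ({d : ℤ | d.natAbs ≤ X ∧ Large (2 * ε) d}.ncard : ℝ) ≤ X * (Real.log X) ^ (-B) := by
  obtain ⟨A, X0, hA, h⟩ := ShortProgressions.result ε (B + 1) hε (by linarith)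
  obtain ⟨X1, hX1⟩ := exists_nat_ge X0
  -- powers of the logarithm are small
  have hlog : ∃ X2 : ℕ, ∀ X : ℕ, X2 ≤ X → Real.log ((X : ℝ) + 1) ^ A ≤ X := by
    have h1 := (isLittleO_log_rpow_rpow_atTop (s := 1) A one_pos).bound (c := 1 / 2) (by norm_num)
    have h2 : Filter.Tendsto (fun X : ℕ => (X : ℝ) + 1) Filter.atTop Filter.atTop :=
      Filter.tendsto_atTop_add_const_right _ _ tendsto_natCast_atTop_atTop
    obtain ⟨M, hM⟩ := (h2.eventually h1).exists_forall_of_atTop
    refine ⟨max M 1, fun X hX => ?_⟩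
    have h3 := hM X ((le_max_left _ _).trans hX)
    have hX1 : (1 : ℝ) ≤ X := by exact_mod_cast (le_max_right M 1).trans hX
    rw [Real.norm_of_nonneg (Real.rpow_nonneg (Real.log_nonneg (by linarith)) _), Real.rpow_one,
      Real.norm_of_nonneg (by linarith)] at h3
    linarith
  obtain ⟨X2, hX2⟩ := hlog
  obtain ⟨X3, hX3⟩ := Pool.Agent.V11109.DEC.pow_small (s := 1 / 2) (K := 2) B (by norm_num)
    (show (0 : ℝ) < 1 / 2 by norm_num)
  obtain ⟨X4, hX4⟩ := exists_nat_ge (Real.exp 2)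
  refine ⟨max (max X1 X2) (max X3 (max X4 3)), fun X hX => ?_⟩
  have g1 : X1 ≤ X := ((le_max_left _ _).trans (le_max_left _ _)).trans hX
  have g2 : X2 ≤ X := ((le_max_right _ _).trans (le_max_left _ _)).trans hX
  have g3 : X3 ≤ X := ((le_max_left _ _).trans (le_max_right _ _)).trans hX
  have g4 : X4 ≤ X := ((le_max_left _ _).trans ((le_max_right _ _).trans (le_max_right _ _))).trans hX
  have g5 : 3 ≤ X := ((le_max_right _ _).trans ((le_max_right _ _).trans (le_max_right _ _))).trans hX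
  have hXp : (3 : ℝ) ≤ X := by exact_mod_cast g5
  have hX2' : Real.exp 2 ≤ X := hX4.trans (by exact_mod_cast g4)
  have hl2 : 2 ≤ Real.log X := (Real.le_log_iff_exp_le (by linarith)).2 hX2'
  have hX0' : X0 ≤ (X : ℝ) + 1 := by
    have : (X1 : ℝ) ≤ X := by exact_mod_cast g1
    linarith
  have h1 := h ((X : ℝ) + 1) hX0' 1 1 X le_rfl (by push_cast; linarith) (hX2 X g2)
  set S : Finset ℕ := (Finset.range X).filter (fun j => ¬ IsSquare (1 + 1 * j) ∧
        ∃ (K : Type) (_ : Field K) (_ : NumberField K) (l : ℕ), Module.finrank ℚ K = 2 ∧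
          (∃ x : K, x ^ 2 = ((1 + 1 * j : ℕ) : K)) ∧ 1 ≤ l ∧
          |(discr K : ℝ)| ^ (1 / 2 - 1 / (2 * l) : ℝ) * ((X : ℝ) + 1) ^ ε <
            (Nat.card {c : ClassGroup (𝓞 K) // c ^ l = 1} : ℝ)) with hS
  have hsub : {d : ℤ | d.natAbs ≤ X ∧ Large (2 * ε) d}.ncard ≤ (Nat.sqrt X + 1) + S.card := by
    have h2 : {d : ℤ | d.natAbs ≤ X ∧ Large (2 * ε) d} ⊆
        (((Finset.range (Nat.sqrt X + 1)).image (fun n : ℕ => (n : ℤ)) ∪
          S.image (fun j : ℕ => ((1 + 1 * j : ℕ) : ℤ)) : Finset ℤ) : Set ℤ) := by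
      rintro d ⟨hd1, h0, h2, K, i1, i2, l, h3, ⟨x, hx⟩, h5, h6⟩
      rw [Finset.mem_coe, Finset.mem_union]
      obtain ⟨n, rfl⟩ : ∃ n : ℕ, d = (n : ℤ) := ⟨d.toNat, by omega⟩
      have hn0 : 0 < n := by exact_mod_cast h0
      have hnX : n ≤ X := by simpa using hd1
      rcases Nat.lt_or_ge (Nat.sqrt X) n with hn | hn
      · right
        refine Finset.mem_image.2 ⟨n - 1, ?_, by push_cast; omega⟩
        rw [hS, Finset.mem_filter, Finset.mem_range]
        have e : 1 + 1 * (n - 1) = n := by omega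
        rw [e]
        refine ⟨by omega, fun hsq => h2 ?_, K, i1, i2, l, h3, ⟨x, ?_⟩, h5, lt_of_le_of_lt ?_ h6⟩
        · obtain ⟨m, hm⟩ := hsq
          exact ⟨(m : ℤ), by exact_mod_cast hm⟩
        · rw [hx]
          push_cast
          rfl
        · refine mul_le_mul_of_nonneg_left ?_ (by positivity)
          have h7 : (X : ℝ) + 1 ≤ (n : ℝ) ^ 2 := by
            have h8 : X < n ^ 2 := by
              have h9 := Nat.lt_succ_sqrt' X
              have h10 : (Nat.sqrt X + 1) ^ 2 ≤ n ^ 2 := Nat.pow_le_pow_left hn 2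
              exact lt_of_lt_of_le h9 h10
            exact_mod_cast h8
          have h8 : ((X : ℝ) + 1) ^ ε ≤ ((n : ℝ) ^ 2) ^ ε :=
            Real.rpow_le_rpow (by positivity) h7 hε.le
          refine h8.trans (le_of_eq ?_)
          rw [← Real.rpow_natCast, ← Real.rpow_mul (Nat.cast_nonneg _)]
          push_cast
          rfl
      · left
        exact Finset.mem_image.2 ⟨n, Finset.mem_range.2 (by omega), rfl⟩
    refine (Set.ncard_le_ncard h2 (Finset.finite_toSet _)).trans ?_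
    rw [Set.ncard_coe_finset]
    refine (Finset.card_union_le _ _).trans ?_
    refine add_le_add (Finset.card_image_le.trans ?_) Finset.card_image_le
    rw [Finset.card_range]
  have h2 : (({d : ℤ | d.natAbs ≤ X ∧ Large (2 * ε) d}.ncard : ℕ) : ℝ) ≤
      ((Nat.sqrt X : ℕ) : ℝ) + 1 + (S.card : ℝ) := by exact_mod_cast hsub
  have h3 : ((Nat.sqrt X : ℕ) : ℝ) + 1 ≤ 2 * (X : ℝ) ^ ((1 : ℝ) / 2) := by
    have h4 : ((Nat.sqrt X : ℕ) : ℝ) ≤ Real.sqrt X := Real.nat_sqrt_le_real_sqrt
    have h5 : 1 ≤ Real.sqrt X := Real.one_le_sqrt.2 (by linarith)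
    rw [← Real.sqrt_eq_rpow]
    linarith
  have h4 := hX3 X g3
  have hlp : (0 : ℝ) < Real.log X := by linarith
  have h5 : (S.card : ℝ) ≤ 1 / 2 * X * (Real.log X) ^ (-B) := by
    refine h1.trans ?_
    have h6 : Real.log X ≤ Real.log ((X : ℝ) + 1) := Real.log_le_log (by linarith) (by linarith)
    have h7 : (Real.log X) ^ (B + 1) ≤ (Real.log ((X : ℝ) + 1)) ^ (B + 1) :=
      Real.rpow_le_rpow hlp.le h6 (by linarith)
    calc (X : ℝ) / (Real.log ((X : ℝ) + 1)) ^ (B + 1) ≤ X / (Real.log X) ^ (B + 1) :=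
          div_le_div_of_nonneg_left (by linarith) (Real.rpow_pos_of_pos hlp _) h7
      _ = X * ((Real.log X) ^ (-B) * (Real.log X)⁻¹) := by
          rw [div_eq_mul_inv, ← Real.rpow_neg hlp.le, neg_add, Real.rpow_add hlp, Real.rpow_neg_one]
      _ ≤ X * ((Real.log X) ^ (-B) * (1 / 2)) := by
          refine mul_le_mul_of_nonneg_left ?_ (by linarith)
          refine mul_le_mul_of_nonneg_left ?_ (Real.rpow_nonneg hlp.le _)
          rw [one_div]
          exact inv_anti₀ (by norm_num) hl2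
      _ = _ := by ring
  linarith

/-- **Main result.** For every real `p > 1` there is a set `A₀` of real numbers of Hausdorff dimension
smaller than one such that at least `N / 3` of the `t_j`, `j ≤ N`, are squarefree (`α > 0` outside `A₀`, `N`
large), and for all `ε, B > 0` the integers in `Large ε` are rare along the sequences `e t_j` with the
exponent `B`. -/
theorem result (p : ℝ) (hp : 1 < p) : ∃ A₀ : Set ℝ, dimH A₀ < 1 ∧ ManySquarefree p A₀ ∧
    ∀ ε B : ℝ, 0 < ε → 0 < B → Rare p A₀ B (Large ε) := by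
  obtain ⟨A₀, hA₀, hsq, h⟩ := Pool.Agent.V11109.DEC.rare p hp
    (fun m : ℕ => Large (2 * (1 / ((m : ℝ) + 1))))
  refine ⟨A₀, hA₀, hsq, fun ε B hε hB => ?_⟩
  obtain ⟨m, hm⟩ := exists_nat_one_div_lt (show 0 < ε / 2 by positivity)
  obtain ⟨C, hC⟩ := Pool.Agent.V11109.DEC.extend (Large (2 * (1 / ((m : ℝ) + 1)))) B hB.le
    (count (1 / ((m : ℝ) + 1)) B (by positivity) hB)
  exact (h m C B hB.le hC).mono fun d hd => hd.mono (by linarith)

end Pool.Agent.Results.MP_695920_nt.TorsionAlongSequences
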