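import Pool.Agent.Results.MP_695920_nt.PolynomialFamilies
import Pool.Agent.V35.WP

/-!
# `l`-torsion in the class groups of ALL fields of the equations `f(x) = t` with `t` near almost every point

Let `n, l ≥ 3`, let `f` be a monic integral polynomial of degree `n` and let `K_t` be a number field of degree `n` generated
by a root of `f(x) = t`. The discriminant of `f - t` is about `|t| ^ (n - 1)`, so the trivial bound for the class group is
about `|t| ^ ((n - 1) / 2)`. The starting theorem `PolynomialFamilies` bounds the mean value of `|Cl(K_t)[l]|` over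
`|t| ≤ N`, with the saving `|t| ^ s`, `s = min ((2 - 3/n) / l, 1/3)`; it gives no bound for a given `t`. Here: for almost all
real `α` the bound `|Cl(K_t)[l]| ≤ |t| ^ ((n - 1) / 2 - κ)` holds for ALL integers `t` at distance at most `v_k ^ θ` from
`v_k α`, `k` large, and all `f` (one exceptional set for all `f`), if `κ + θ + τ < s`.
-/

set_option autoImplicit false

open Polynomial NumberField MeasureTheory

namespace Pool.Agent.Results.MP_695920_nt.TorsionInWindows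

open Pool.Agent.V35.WM Pool.Agent.V35.WP

/-- `t` is an integer such that for some number field `K` of degree `n` generated by a root of `f(x) = t` the class group of
`K` has more than `|t| ^ ((n - 1) / 2 - κ)` elements `c` with `c ^ l = 1`. -/
def Large (f : ℤ[X]) (n l : ℕ) (κ : ℝ) : Set ℤ :=
  {t | ∃ (K : Type) (_ : Field K) (_ : NumberField K) (a : K), Module.finrank ℚ K = n ∧
    IntermediateField.adjoin ℚ {a} = ⊤ ∧ aeval a f = (t : K) ∧
    |(t : ℝ)| ^ (((n : ℝ) - 1) / 2 - κ) < (Nat.card {c : ClassGroup (𝓞 K) // c ^ l = 1} : ℝ)}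

/-- a number field with an element -/
structure NF where
  K : Type
  i1 : Field K
  i2 : NumberField K
  a : K

/-- the saving in the mean value theorem -/
noncomputable def sav (n l : ℕ) : ℝ := min ((2 - 3 / (n : ℝ)) / (l : ℝ)) (1 / 3)

lemma finite_abs (H : ℕ) : {t : ℤ | |t| ≤ (H : ℤ)}.Finite :=
  (Finset.finite_toSet (Finset.Icc (-(H : ℤ)) H)).subset fun t ht => by
    rw [Finset.mem_coe, Finset.mem_Icc]
    exact abs_le.1 ht

/-- the number of the large `t` with `H / 2 < |t| ≤ H` -/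
lemma upper_half (n l : ℕ) (hn : 3 ≤ n) (hl : 3 ≤ l) (f : ℤ[X]) (hf : f.Monic) (hd : f.natDegree = n) (κ : ℝ)
    (hκ : κ < sav n l) (ε : ℝ) (hε : 0 < ε) : ∃ B : ℝ, 0 ≤ B ∧ ∀ H : ℕ, 1 ≤ H →
      ({t : ℤ | t ∈ Large f n l κ ∧ (H : ℝ) / 2 ≤ |(t : ℝ)| ∧ |t| ≤ (H : ℤ)}.ncard : ℝ) ≤
        B * (H : ℝ) ^ (1 + κ - sav n l + ε) := by
  obtain ⟨C, hC⟩ := (PolynomialFamilies.result n l hn hl ε hε).2 f hf hd
  have hp : 0 ≤ ((n : ℝ) - 1) / 2 - κ := by
    have h1 : (3 : ℝ) ≤ n := by exact_mod_cast hn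
    have h2 : sav n l ≤ 1 / 3 := min_le_right _ _
    linarith
  obtain ⟨p, hpd⟩ : ∃ p, p = ((n : ℝ) - 1) / 2 - κ := ⟨_, rfl⟩
  rw [← hpd] at hp
  refine ⟨|C| * 2 ^ p, by positivity, fun H hH => ?_⟩
  have hH0 : (0 : ℝ) < H := by exact_mod_cast hH
  set S : Set ℤ := {t : ℤ | t ∈ Large f n l κ ∧ (H : ℝ) / 2 ≤ |(t : ℝ)| ∧ |t| ≤ (H : ℤ)} with hS
  have hfin : S.Finite := (finite_abs H).subset fun t ht => ht.2.2
  have hex : ∀ t : ℤ, ∃ F : NF, t ∈ S →
      (letI := F.i1; letI := F.i2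
       Module.finrank ℚ F.K = n ∧ IntermediateField.adjoin ℚ {F.a} = ⊤ ∧ aeval F.a f = (t : F.K) ∧
        |(t : ℝ)| ^ (((n : ℝ) - 1) / 2 - κ) < (Nat.card {c : ClassGroup (𝓞 F.K) // c ^ l = 1} : ℝ)) := by
    intro t
    by_cases ht : t ∈ S
    · obtain ⟨K, i1, i2, a, h⟩ := ht.1
      exact ⟨⟨K, i1, i2, a⟩, fun _ => h⟩
    · exact ⟨⟨ℚ, inferInstance, inferInstance, 0⟩, fun h => absurd h ht⟩
  choose F hF using hex
  have h1 := @hC H hH (fun t => (F t).K) (fun t => (F t).i1) (fun t => (F t).i2) (fun t => (F t).a) hfin.toFinset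
    (fun t ht => by
      have ht' : t ∈ S := hfin.mem_toFinset.1 ht
      obtain ⟨h2, h3, h4, -⟩ := hF t ht'
      exact ⟨ht'.2.2, h2, h3, h4⟩)
  have h2 : (S.ncard : ℝ) * ((H : ℝ) / 2) ^ p ≤ C * (H : ℝ) ^ (1 + ((n : ℝ) - 1) / 2 - sav n l + ε) := by
    refine le_trans ?_ h1
    rw [Set.ncard_eq_toFinset_card _ hfin, ← nsmul_eq_mul, ← Finset.sum_const]
    refine Finset.sum_le_sum fun t ht => ?_
    have ht' : t ∈ S := hfin.mem_toFinset.1 ht
    have h5 := (hF t ht').2.2.2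
    refine le_trans ?_ h5.le
    rw [← hpd]
    exact Real.rpow_le_rpow (by positivity) ht'.2.1 hp
  have h3 : 0 < ((H : ℝ) / 2) ^ p := by positivity
  have h4 : (S.ncard : ℝ) ≤ C * (H : ℝ) ^ (1 + ((n : ℝ) - 1) / 2 - sav n l + ε) / ((H : ℝ) / 2) ^ p := by
    rw [le_div_iff₀ h3]
    exact h2
  refine h4.trans ?_
  rw [Real.div_rpow hH0.le two_pos.le]
  have h5 : (H : ℝ) ^ (1 + ((n : ℝ) - 1) / 2 - sav n l + ε) = (H : ℝ) ^ (1 + κ - sav n l + ε) * (H : ℝ) ^ p := by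
    rw [← Real.rpow_add hH0, hpd]
    congr 1
    ring
  have hHp : 0 < (H : ℝ) ^ p := by positivity
  have h2p : (0 : ℝ) < 2 ^ p := by positivity
  rw [h5]
  have h6 : C * ((H : ℝ) ^ (1 + κ - sav n l + ε) * (H : ℝ) ^ p) / ((H : ℝ) ^ p / 2 ^ p) =
      (C * 2 ^ p) * (H : ℝ) ^ (1 + κ - sav n l + ε) := by
    field_simp
  rw [h6]
  apply mul_le_mul_of_nonneg_right _ (by positivity)
  exact mul_le_mul_of_nonneg_right (le_abs_self C) h2p.le

/-- all the large `t` with `|t| ≤ H` -/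
lemma count (n l : ℕ) (hn : 3 ≤ n) (hl : 3 ≤ l) (f : ℤ[X]) (hf : f.Monic) (hd : f.natDegree = n) (κ : ℝ) (hκ0 : 0 ≤ κ)
    (hκ : κ < sav n l) (ε : ℝ) (hε : 0 < ε) : ∃ A : ℝ, ∀ H : ℕ, 1 ≤ H →
      ({t : ℤ | t ∈ Large f n l κ ∧ |t| ≤ (H : ℤ)}.ncard : ℝ) ≤ A * (H : ℝ) ^ (1 + κ - sav n l + ε) := by
  obtain ⟨B, hB0, hB⟩ := upper_half n l hn hl f hf hd κ hκ ε hε
  obtain ⟨q, hq⟩ : ∃ q, q = 1 + κ - sav n l + ε := ⟨_, rfl⟩
  rw [← hq] at hB ⊢
  have hsav : sav n l ≤ 1 / 3 := min_le_right _ _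
  have hq0 : 0 < q := by rw [hq]; linarith
  have h2q : (2 : ℝ) ^ (-q) < 1 := Real.rpow_lt_one_of_one_lt_of_neg (by norm_num) (by linarith)
  have h2q0 : 0 < 1 - (2 : ℝ) ^ (-q) := by linarith
  set A : ℝ := B / (1 - 2 ^ (-q)) with hA
  have hA0 : 0 ≤ A := by positivity
  have hAB : A * 2 ^ (-q) + B = A := by
    rw [hA]
    field_simp
    ring
  have key : ∀ H : ℕ, ({t : ℤ | t ∈ Large f n l κ ∧ |t| ≤ (H : ℤ)}.ncard : ℝ) ≤ A * (H : ℝ) ^ q + 1 := by
    intro H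
    induction H using Nat.strong_induction_on with
    | _ H ih =>
      rcases Nat.eq_zero_or_pos H with h0 | hH
      · subst h0
        have hsub : {t : ℤ | t ∈ Large f n l κ ∧ |t| ≤ ((0 : ℕ) : ℤ)} ⊆ {0} := by
          rintro t ⟨-, ht⟩
          have h1 : |t| ≤ 0 := by simpa using ht
          exact abs_nonpos_iff.1 h1
        have h1 := Set.ncard_le_ncard hsub (Set.finite_singleton _)
        rw [Set.ncard_singleton] at h1
        have h2 : (0 : ℝ) ≤ A * ((0 : ℕ) : ℝ) ^ q := by positivity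
        have h3 : (({t : ℤ | t ∈ Large f n l κ ∧ |t| ≤ ((0 : ℕ) : ℤ)}.ncard : ℕ) : ℝ) ≤ 1 := by exact_mod_cast h1
        linarith
      · have hlt : H / 2 < H := by omega
        have h1 := ih (H / 2) hlt
        have h2 := hB H hH
        have hH0 : (0 : ℝ) < H := by exact_mod_cast hH
        have hsub : {t : ℤ | t ∈ Large f n l κ ∧ |t| ≤ (H : ℤ)} ⊆
            {t : ℤ | t ∈ Large f n l κ ∧ |t| ≤ ((H / 2 : ℕ) : ℤ)} ∪
            {t : ℤ | t ∈ Large f n l κ ∧ (H : ℝ) / 2 ≤ |(t : ℝ)| ∧ |t| ≤ (H : ℤ)} := by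
          rintro t ⟨ht, hle⟩
          by_cases hs : |t| ≤ ((H / 2 : ℕ) : ℤ)
          · exact Or.inl ⟨ht, hs⟩
          · refine Or.inr ⟨ht, ?_, hle⟩
            push Not at hs
            have h3 : (H : ℤ) ≤ 2 * |t| := by omega
            have h4 : (H : ℝ) ≤ 2 * |(t : ℝ)| := by
              have : ((H : ℤ) : ℝ) ≤ ((2 * |t| : ℤ) : ℝ) := by exact_mod_cast h3
              push_cast at this
              exact this
            linarith
        have h3 := (Set.ncard_le_ncard hsub (((finite_abs (H / 2)).subset fun t ht => ht.2).union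
          ((finite_abs H).subset fun t ht => ht.2.2))).trans (Set.ncard_union_le _ _)
        have h4 : (((H / 2 : ℕ) : ℝ)) ^ q ≤ (H : ℝ) ^ q * 2 ^ (-q) := by
          have h5 : (((H / 2 : ℕ) : ℝ)) ≤ (H : ℝ) / 2 := Nat.cast_div_le
          calc (((H / 2 : ℕ) : ℝ)) ^ q ≤ ((H : ℝ) / 2) ^ q := Real.rpow_le_rpow (Nat.cast_nonneg _) h5 hq0.le
            _ = (H : ℝ) ^ q * 2 ^ (-q) := by
                rw [Real.div_rpow hH0.le two_pos.le, Real.rpow_neg two_pos.le, div_eq_mul_inv]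
        calc ({t : ℤ | t ∈ Large f n l κ ∧ |t| ≤ (H : ℤ)}.ncard : ℝ)
            ≤ ({t : ℤ | t ∈ Large f n l κ ∧ |t| ≤ ((H / 2 : ℕ) : ℤ)}.ncard : ℝ) +
              ({t : ℤ | t ∈ Large f n l κ ∧ (H : ℝ) / 2 ≤ |(t : ℝ)| ∧ |t| ≤ (H : ℤ)}.ncard : ℝ) := by exact_mod_cast h3
          _ ≤ (A * (((H / 2 : ℕ) : ℝ)) ^ q + 1) + B * (H : ℝ) ^ q := add_le_add h1 h2
          _ ≤ (A * ((H : ℝ) ^ q * 2 ^ (-q)) + 1) + B * (H : ℝ) ^ q := by
              have := mul_le_mul_of_nonneg_left h4 hA0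
              linarith
          _ = (A * 2 ^ (-q) + B) * (H : ℝ) ^ q + 1 := by ring
          _ = A * (H : ℝ) ^ q + 1 := by rw [hAB]
  refine ⟨A + 1, fun H hH => (key H).trans ?_⟩
  have hH1 : (1 : ℝ) ≤ H := by exact_mod_cast hH
  have h1 : (1 : ℝ) ≤ (H : ℝ) ^ q := Real.one_le_rpow hH1 hq0.le
  linarith

lemma countable_poly : Countable ℤ[X] := by
  rw [← Cardinal.mk_le_aleph0_iff]
  refine Polynomial.cardinalMk_le_max.trans ?_
  simp

/-- **Theorem.** Let `n, l ≥ 3` and `0 ≤ κ < s = min ((2 - 3/n) / l, 1/3)`. For all sequences `v ≥ 1` of exponent of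
convergence at most `τ ≥ 0` and all `θ < 1` there is a set `E` of real numbers of Hausdorff dimension at most
`(1 - (s - κ) + τ) / (1 - θ)`, and of measure zero if `κ + θ + τ < s`, such that for all `α` outside `E`, all monic
polynomials `f` of degree `n` with integral coefficients and all large `k`: for ALL integers `t` with
`|t - v_k α| ≤ (v_k) ^ θ` and all number fields `K` of degree `n` generated by a root of `f(x) = t` there are at most
`|t| ^ ((n - 1) / 2 - κ)` elements `c` of the class group of `K` with `c ^ l = 1`. The exponent of convergence of `b ^ k`,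
`b > 1`, is at most `0`, that of `(k + 1) ^ A` is at most `1 / A`. -/
theorem result (n l : ℕ) (hn : 3 ≤ n) (hl : 3 ≤ l) (κ : ℝ) (hκ0 : 0 ≤ κ) (hκ : κ < sav n l) :
    (∀ (v : ℕ → ℝ) (τ θ : ℝ), (∀ k, 1 ≤ v k) → 0 ≤ τ → ExpLe v τ → θ < 1 →
      ∃ E : Set ℝ, dimH E ≤ ENNReal.ofReal ((1 - (sav n l - κ) + τ) / (1 - θ)) ∧
        (κ + θ + τ < sav n l → volume E = 0) ∧
        ∀ α : ℝ, α ∉ E → ∀ f : ℤ[X], f.Monic → f.natDegree = n → ∃ k₀ : ℕ, ∀ k : ℕ, k₀ ≤ k →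
          ∀ t : ℤ, |(t : ℝ) - v k * α| ≤ (v k) ^ θ →
            ∀ (K : Type) [Field K] [NumberField K] (a : K), Module.finrank ℚ K = n →
              IntermediateField.adjoin ℚ {a} = ⊤ → aeval a f = (t : K) →
              (Nat.card {c : ClassGroup (𝓞 K) // c ^ l = 1} : ℝ) ≤ |(t : ℝ)| ^ (((n : ℝ) - 1) / 2 - κ)) ∧
    (∀ b : ℝ, 1 < b → ExpLe (fun k : ℕ => b ^ k) 0) ∧
    (∀ A : ℝ, 0 < A → ExpLe (fun k : ℕ => ((k : ℝ) + 1) ^ A) (1 / A)) := by
  refine ⟨fun v τ θ hv hτ hE hθ => ?_, fun b hb => expLe_geom b hb, fun A hA => expLe_pow A hA⟩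
  have hsav : sav n l ≤ 1 / 3 := min_le_right _ _
  have hs : 0 ≤ 1 - (sav n l - κ) := by linarith
  have hthin : ∀ f : ℤ[X], f.Monic → f.natDegree = n →
      Thin (Large f n l κ) (fun t : ℤ => (t : ℝ)) (1 - (sav n l - κ)) := by
    intro f hf hd ε hε
    obtain ⟨A, hA⟩ := count n l hn hl f hf hd κ hκ0 hκ ε hε
    refine ⟨|A|, fun X hX => ?_⟩
    have hX0 : 0 ≤ X := by linarith
    have hH : 1 ≤ ⌊X⌋₊ := Nat.le_floor (by exact_mod_cast hX)
    have hsub : {t | t ∈ Large f n l κ ∧ ‖(t : ℝ)‖ ≤ X} ⊆ {t : ℤ | t ∈ Large f n l κ ∧ |t| ≤ ((⌊X⌋₊ : ℕ) : ℤ)} := by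
      rintro t ⟨ht, hle⟩
      refine ⟨ht, ?_⟩
      rw [Real.norm_eq_abs] at hle
      have h4 : ((t.natAbs : ℕ) : ℝ) ≤ X := by
        rw [Nat.cast_natAbs]
        push_cast
        exact hle
      have h5 : t.natAbs ≤ ⌊X⌋₊ := Nat.le_floor h4
      rw [Int.abs_eq_natAbs]
      exact_mod_cast h5
    have hfin : {t : ℤ | t ∈ Large f n l κ ∧ |t| ≤ ((⌊X⌋₊ : ℕ) : ℤ)}.Finite :=
      (finite_abs ⌊X⌋₊).subset fun t ht => ht.2
    refine ⟨hfin.subset hsub, ?_⟩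
    have hexp : 1 - (sav n l - κ) + ε = 1 + κ - sav n l + ε := by ring
    rw [hexp]
    have hq0 : 0 ≤ 1 + κ - sav n l + ε := by linarith
    calc ({t | t ∈ Large f n l κ ∧ ‖(t : ℝ)‖ ≤ X}.ncard : ℝ)
        ≤ ({t : ℤ | t ∈ Large f n l κ ∧ |t| ≤ ((⌊X⌋₊ : ℕ) : ℤ)}.ncard : ℝ) := by
          exact_mod_cast Set.ncard_le_ncard hsub hfin
      _ ≤ A * ((⌊X⌋₊ : ℕ) : ℝ) ^ (1 + κ - sav n l + ε) := hA _ hH
      _ ≤ |A| * ((⌊X⌋₊ : ℕ) : ℝ) ^ (1 + κ - sav n l + ε) :=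
          mul_le_mul_of_nonneg_right (le_abs_self A) (by positivity)
      _ ≤ |A| * X ^ (1 + κ - sav n l + ε) :=
          mul_le_mul_of_nonneg_left (Real.rpow_le_rpow (Nat.cast_nonneg _) (Nat.floor_le hX0) hq0) (abs_nonneg A)
  have hcount : Countable ℤ[X] := countable_poly
  have hdim : ∀ f : {f : ℤ[X] // f.Monic ∧ f.natDegree = n},
      dimH (BadWin (Large f.1 n l κ) (fun t : ℤ => (t : ℝ)) v θ) ≤
        ENNReal.ofReal ((1 - (sav n l - κ) + τ) / (1 - θ)) := fun f =>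
    dim_badWin hv hτ hE hs hθ (hthin f.1 f.2.1 f.2.2)
  refine ⟨⋃ f : {f : ℤ[X] // f.Monic ∧ f.natDegree = n}, BadWin (Large f.1 n l κ) (fun t : ℤ => (t : ℝ)) v θ,
    ?_, fun hlt => ?_, fun α hα f hf hd => ?_⟩
  · rw [dimH_iUnion]
    exact iSup_le hdim
  · rw [measure_iUnion_null_iff]
    intro f
    refine null_real (hdim f) ?_
    rw [div_lt_one (by linarith)]
    linarith
  · have hα' : α ∉ BadWin (Large f n l κ) (fun t : ℤ => (t : ℝ)) v θ :=
      fun h => hα (Set.mem_iUnion.2 ⟨⟨f, hf, hd⟩, h⟩)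
    by_contra hcon
    apply hα'
    intro n1
    push Not at hcon
    obtain ⟨k, hk, t, ht, K, i1, i2, a, h1, h2, h3, h4⟩ := hcon n1
    refine ⟨k, hk, t, ⟨K, i1, i2, a, h1, h2, h3, h4⟩, ?_⟩
    rw [Real.norm_eq_abs, smul_eq_mul]
    exact ht

end Pool.Agent.Results.MP_695920_nt.TorsionInWindows
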